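import Pool.Agent.Helper23.IM.Path
import Pool.Agent.Helper23.IM.Defs
import Pool.Agent.Helper80.Tor.Count

/-! # Piece CT : counting -/

namespace IM

open Pool.Agent.Helper80.Tor in
theorem counting {A V X Ed : Type*} {L : ℕ} [NeZero L] [Fintype X] [DecidableEq X] [DecidableEq V]
    [DecidableEq Ed]
    (t : ZMod L → A × Bool) (hred : ∀ i, t (i + 1) ≠ flip (t i))
    (h : ZMod L → ℕ) (hinj : Function.Injective h)
    (hst : ∀ i j, (t i).1 = (t j).1 →
      (h (srcI t i) < h (srcI t j) ↔ h (tgtI t i) < h (tgtI t j)))
    (s : X → X) (hs : Function.Injective s) (idx : X → ZMod L)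
    (hidx : ∀ x, idx (s x) = idx x + 1)
    (pos : X → V) (hpos : ∀ x y, pos x = pos y → idx x = idx y → x = y)
    (ed : X → Ed) (esrc etgt : Ed → V) (elet : Ed → A)
    (hlet : ∀ x, elet (ed x) = (t (idx x)).1)
    (hsrc : ∀ x, esrc (ed x) = if (t (idx x)).2 then pos x else pos (s x))
    (htgt : ∀ x, etgt (ed x) = if (t (idx x)).2 then pos (s x) else pos x) :
    (Finset.univ.filter fun x => idx x = 0).card + (Finset.univ.image pos).card ≤
      (Finset.univ.image ed).card +
        ((Finset.univ.image ed).filter fun e => (Finset.univ.filter fun x => ed x = e).card = 1).card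
    := by
  classical
  let nx : X ≃ X := Equiv.ofBijective s (Finite.injective_iff_bijective.1 hs)
  have hnx : ∀ x, nx x = s x := fun x => rfl
  have H : IsStrands t (fun i j => h i < h j) nx idx pos ed := by
    refine ⟨hred, ⟨fun i j k h1 h2 => lt_trans h1 h2, fun i => lt_irrefl _, ?_, ?_, ?_⟩, ?_, hpos, ?_⟩
    · intro i j hij
      exact lt_or_gt_of_ne fun h' => hij (hinj h')
    · intro i j hij
      have h1 := hst i j (by rw [hij])
      unfold srcI tgtI at h1
      rw [hij] at h1
      split_ifs at h1
      · exact h1
      · exact h1.symm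
    · intro i j hij
      have h1 := hst i j (by rw [hij]; rfl)
      unfold srcI tgtI at h1
      rw [hij] at h1
      cases hb : (t j).2
      · have : (fl (t j)).2 = true := by simp [fl, hb]
        rw [this, hb] at h1
        simpa using h1
      · have : (fl (t j)).2 = false := by simp [fl, hb]
        rw [this, hb] at h1
        simpa using h1.symm
    · intro x
      rw [hnx, hidx]
    · intro x y hxy
      have h1 := hlet x
      have h2 := hsrc x
      have h3 := htgt x
      rw [hxy, hlet y] at h1
      rw [hxy, hsrc y] at h2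
      rw [hxy, htgt y] at h3
      rw [hnx, hnx]
      cases hx : (t (idx x)).2 <;> cases hy : (t (idx y)).2 <;>
        simp only [hx, hy, Bool.false_eq_true, if_true, if_false] at h2 h3
      · exact Or.inl ⟨Prod.ext h1.symm (hx.trans hy.symm), h3.symm, h2.symm⟩
      · exact Or.inr ⟨Prod.ext h1.symm (by simp [fl, hx, hy]), h3.symm, h2.symm⟩
      · exact Or.inr ⟨Prod.ext h1.symm (by simp [fl, hx, hy]), h2.symm, h3.symm⟩
      · exact Or.inl ⟨Prod.ext h1.symm (hx.trans hy.symm), h2.symm, h3.symm⟩
  have key := H.count
  have e1 : Nat.card {x // idx x = 0} = (Finset.univ.filter fun x => idx x = 0).card := by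
    rw [Nat.card_eq_fintype_card, Fintype.card_subtype]
  have e2 : (Set.range pos).ncard = (Finset.univ.image pos).card := by
    rw [← Set.ncard_coe_finset, Finset.coe_image, Finset.coe_univ, Set.image_univ]
  have e3 : (Set.range ed).ncard = (Finset.univ.image ed).card := by
    rw [← Set.ncard_coe_finset, Finset.coe_image, Finset.coe_univ, Set.image_univ]
  have e4 : {e | ∃ x, ed x = e ∧ ∀ y, ed y = e → y = x}.ncard =
      ((Finset.univ.image ed).filter fun e =>
        (Finset.univ.filter fun x => ed x = e).card = 1).card := by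
    rw [← Set.ncard_coe_finset]
    congr 1
    ext e
    simp only [Set.mem_ofPred_eq, Finset.coe_filter, Finset.mem_image, Finset.mem_univ, true_and,
      Finset.card_eq_one]
    constructor
    · rintro ⟨x, hx, hx'⟩
      refine ⟨⟨x, hx⟩, x, ?_⟩
      ext y
      simp only [Finset.mem_filter, Finset.mem_univ, true_and, Finset.mem_singleton]
      exact ⟨hx' y, fun hy => by rw [hy]; exact hx⟩
    · rintro ⟨-, x, hx⟩
      have h1 : x ∈ Finset.univ.filter fun y => ed y = e := by rw [hx]; simp
      simp only [Finset.mem_filter, Finset.mem_univ, true_and] at h1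
      refine ⟨x, h1, fun y hy => ?_⟩
      have h2 : y ∈ Finset.univ.filter fun y => ed y = e := by simp [hy]
      rw [hx] at h2
      simpa using h2
  rw [e1, e2, e3, e4] at key
  exact key

end IM
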