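import Pool.Agent.Helper23.IM.Path
import Pool.Agent.Helper23.IM.Defs
import Pool.Agent.Helper80.Tor.Stack

/-! # Piece ST : stacking -/

namespace IM

open Pool.Agent.Helper80.Tor in
theorem stacking {A : Type*} {L : ℕ} [NeZero L] (t : ZMod L → A × Bool)
    (hred : ∀ i, t (i + 1) ≠ flip (t i)) (hper : ∀ k : ZMod L, k ≠ 0 → ∃ i, t (i + k) ≠ t i) :
    ∃ h : ZMod L → ℕ, Function.Injective h ∧
      ∀ i j, (t i).1 = (t j).1 → (h (srcI t i) < h (srcI t j) ↔ h (tgtI t i) < h (tgtI t j)) := by
  classical
  obtain ⟨lt, hs⟩ := exists_stack (x := t) hred hper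
  have : Fintype (ZMod L) := ZMod.fintype L
  let h : ZMod L → ℕ := fun i => (Finset.univ.filter fun j => lt j i).card
  have hlt : ∀ i j, lt i j → h i < h j := by
    intro i j hij
    apply Finset.card_lt_card
    refine ⟨fun k hk => ?_, fun hsub => ?_⟩
    · simp only [Finset.mem_filter, Finset.mem_univ, true_and] at hk ⊢
      exact hs.trans _ _ _ hk hij
    · have : i ∈ Finset.univ.filter fun k => lt k j := by simp [hij]
      have := hsub this
      simp only [Finset.mem_filter, Finset.mem_univ, true_and] at this
      exact hs.irrefl i this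
  have hinj : Function.Injective h := by
    intro i j hij
    by_contra hne
    rcases hs.total i j hne with h1 | h1
    · exact absurd hij (hlt _ _ h1).ne
    · exact absurd hij (hlt _ _ h1).ne'
  have hiff : ∀ i j, h i < h j ↔ lt i j := by
    intro i j
    refine ⟨fun h1 => ?_, hlt i j⟩
    by_contra h2
    by_cases h3 : i = j
    · rw [h3] at h1
      exact lt_irrefl _ h1
    · rcases hs.total i j h3 with h4 | h4
      · exact h2 h4
      · exact lt_asymm h1 (hlt _ _ h4)
  refine ⟨h, hinj, fun i j hij => ?_⟩
  rw [hiff, hiff]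
  unfold srcI tgtI
  cases hi : (t i).2 <;> cases hj : (t j).2
  · have hx : t i = t j := Prod.ext hij (hi.trans hj.symm)
    simp only [Bool.false_eq_true, if_false]
    exact (hs.same i j hx).symm
  · have hx : t j = fl (t i) := Prod.ext hij.symm (by simp [fl, hi, hj])
    have hx' : t i = fl (t j) := by rw [hx, fl_fl]
    simp only [Bool.false_eq_true, if_false, if_true]
    exact (hs.opp i j hx').symm
  · have hx : t i = fl (t j) := Prod.ext hij (by simp [fl, hi, hj])
    simp only [Bool.false_eq_true, if_false, if_true]
    exact hs.opp i j hx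
  · have hx : t i = t j := Prod.ext hij (hi.trans hj.symm)
    simp only [if_true]
    exact hs.same i j hx

end IM
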